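import Mathlib

/-! The graph `G(a₁,a₂)` of the two-segment observation problem for the periodic beam has no
cycle, for all distinct non-integer reals `a₁, a₂`. -/

namespace Pool.Agent.Results.MP_0955de_an.NoCycle

open Finset

/-- `A_a = (S_a ∩ ℤ²) \ {(0,0)}`, `S_a` the circle `x² - a x + y² + a y = 0` -/
def A (a : ℝ) : Set (ℤ × ℤ) :=
  {v | (v.1 : ℝ) ^ 2 - a * v.1 + (v.2 : ℝ) ^ 2 + a * v.2 = 0 ∧ v ≠ (0, 0)}

/-- the graph `G(a₁,a₂)`: vertex set `A_{a₁} ∪ A_{a₂}`, two distinct vertices being adjacent when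
they have the same first coordinate or the same second coordinate -/
def G (a₁ a₂ : ℝ) : SimpleGraph ↥(A a₁ ∪ A a₂) where
  Adj v w := v ≠ w ∧ (v.1.1 = w.1.1 ∨ v.1.2 = w.1.2)
  symm := ⟨by
    rintro v w ⟨h1, h2⟩
    exact ⟨h1.symm, h2.imp Eq.symm Eq.symm⟩⟩
  loopless := ⟨fun v h => h.1 rfl⟩

lemma inj_fst {a : ℝ} (ha : ∀ n : ℤ, a ≠ n) {v w : ℤ × ℤ} (hv : v ∈ A a) (hw : w ∈ A a)
    (h : v.1 = w.1) : v = w := by
  have h1 := hv.1
  have h2 := hw.1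
  rw [h] at h1
  have h3 : ((v.2 : ℝ) - w.2) * (v.2 + w.2 + a) = 0 := by linear_combination h1 - h2
  rcases mul_eq_zero.1 h3 with h4 | h4
  · refine Prod.ext h ?_
    have : (v.2 : ℝ) = w.2 := by linarith
    exact_mod_cast this
  · exfalso
    apply ha (-(v.2 + w.2))
    push_cast
    linarith

lemma inj_snd {a : ℝ} (ha : ∀ n : ℤ, a ≠ n) {v w : ℤ × ℤ} (hv : v ∈ A a) (hw : w ∈ A a)
    (h : v.2 = w.2) : v = w := by
  have h1 := hv.1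
  have h2 := hw.1
  rw [h] at h1
  have h3 : ((v.1 : ℝ) - w.1) * (v.1 + w.1 - a) = 0 := by linear_combination h1 - h2
  rcases mul_eq_zero.1 h3 with h4 | h4
  · refine Prod.ext ?_ h
    have : (v.1 : ℝ) = w.1 := by linarith
    exact_mod_cast this
  · exfalso
    apply ha (v.1 + w.1)
    push_cast
    linarith

/-- two finite sets of integer points on the two circles with the same sets of first coordinates
and the same sets of second coordinates are empty -/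
lemma key {a₁ a₂ : ℝ} (h : a₁ ≠ a₂) (h1 : ∀ n : ℤ, a₁ ≠ n) (h2 : ∀ n : ℤ, a₂ ≠ n)
    (P Q : Finset (ℤ × ℤ)) (hP : ∀ v ∈ P, v ∈ A a₁) (hQ : ∀ v ∈ Q, v ∈ A a₂)
    (hx : P.image Prod.fst = Q.image Prod.fst) (hy : P.image Prod.snd = Q.image Prod.snd) :
    P = ∅ ∧ Q = ∅ := by
  have sx : ∀ f : ℤ → ℝ, ∑ v ∈ P, f v.1 = ∑ v ∈ Q, f v.1 := by
    intro f
    rw [← Finset.sum_image (f := f) (g := Prod.fst)
      (fun v hv w hw e => inj_fst h1 (hP v hv) (hP w hw) e), hx,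
      Finset.sum_image (fun v hv w hw e => inj_fst h2 (hQ v hv) (hQ w hw) e)]
  have sy : ∀ f : ℤ → ℝ, ∑ v ∈ P, f v.2 = ∑ v ∈ Q, f v.2 := by
    intro f
    rw [← Finset.sum_image (f := f) (g := Prod.snd)
      (fun v hv w hw e => inj_snd h1 (hP v hv) (hP w hw) e), hy,
      Finset.sum_image (fun v hv w hw e => inj_snd h2 (hQ v hv) (hQ w hw) e)]
  have e1 : ∑ v ∈ P, ((v.1 : ℝ) ^ 2 + (v.2 : ℝ) ^ 2) = a₁ * ∑ v ∈ P, ((v.1 : ℝ) - v.2) := by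
    rw [Finset.mul_sum]
    apply Finset.sum_congr rfl
    intro v hv
    linear_combination (hP v hv).1
  have e2 : ∑ v ∈ Q, ((v.1 : ℝ) ^ 2 + (v.2 : ℝ) ^ 2) = a₂ * ∑ v ∈ Q, ((v.1 : ℝ) - v.2) := by
    rw [Finset.mul_sum]
    apply Finset.sum_congr rfl
    intro v hv
    linear_combination (hQ v hv).1
  have e3 : ∑ v ∈ P, ((v.1 : ℝ) ^ 2 + (v.2 : ℝ) ^ 2) = ∑ v ∈ Q, ((v.1 : ℝ) ^ 2 + (v.2 : ℝ) ^ 2) := by
    rw [Finset.sum_add_distrib, Finset.sum_add_distrib, sx (fun k => (k : ℝ) ^ 2),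
      sy (fun k => (k : ℝ) ^ 2)]
  have e4 : ∑ v ∈ P, ((v.1 : ℝ) - v.2) = ∑ v ∈ Q, ((v.1 : ℝ) - v.2) := by
    rw [Finset.sum_sub_distrib, Finset.sum_sub_distrib, sx (fun k => (k : ℝ)),
      sy (fun k => (k : ℝ))]
  have e5 : (a₁ - a₂) * ∑ v ∈ Q, ((v.1 : ℝ) - v.2) = 0 := by
    rw [e1, e2, e4] at e3
    linear_combination e3
  have e6 : ∑ v ∈ Q, ((v.1 : ℝ) - v.2) = 0 := by
    rcases mul_eq_zero.1 e5 with h' | h'
    · exact absurd (sub_eq_zero.1 h') h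
    · exact h'
  have e7 : ∑ v ∈ Q, ((v.1 : ℝ) ^ 2 + (v.2 : ℝ) ^ 2) = 0 := by rw [e2, e6, mul_zero]
  have e8 : ∑ v ∈ P, ((v.1 : ℝ) ^ 2 + (v.2 : ℝ) ^ 2) = 0 := by rw [e3, e7]
  have fin : ∀ (a : ℝ) (R : Finset (ℤ × ℤ)), (∀ v ∈ R, v ∈ A a) →
      ∑ v ∈ R, ((v.1 : ℝ) ^ 2 + (v.2 : ℝ) ^ 2) = 0 → R = ∅ := by
    intro a R hR hs
    rw [Finset.eq_empty_iff_forall_notMem]
    intro v hv
    have h0 := (Finset.sum_eq_zero_iff_of_nonneg (fun v _ => by positivity)).1 hs v hv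
    apply (hR v hv).2
    have hv1 : (v.1 : ℝ) = 0 := by nlinarith [sq_nonneg (v.1 : ℝ), sq_nonneg (v.2 : ℝ)]
    have hv2 : (v.2 : ℝ) = 0 := by nlinarith [sq_nonneg (v.1 : ℝ), sq_nonneg (v.2 : ℝ)]
    exact Prod.ext (by exact_mod_cast hv1) (by exact_mod_cast hv2)
  exact ⟨fin a₁ P hP e8, fin a₂ Q hQ e7⟩

/-- For all distinct non-integer reals `a₁, a₂` the graph `G(a₁,a₂)` has no cycle. -/
theorem result (a₁ a₂ : ℝ) (h : a₁ ≠ a₂) (h1 : ∀ n : ℤ, a₁ ≠ n) (h2 : ∀ n : ℤ, a₂ ≠ n) :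
    (G a₁ a₂).IsAcyclic := by
  classical
  intro v₀ c hc
  set V : Finset (ℤ × ℤ) := c.support.toFinset.image Subtype.val with hV
  -- neighbours
  have nb : ∀ w ∈ c.support, ∃ u₁ ∈ c.support, ∃ u₂ ∈ c.support, u₁ ≠ u₂ ∧
      (G a₁ a₂).Adj w u₁ ∧ (G a₁ a₂).Adj w u₂ := by
    intro w hw
    have hn := hc.ncard_neighborSet_toSubgraph_eq_two hw
    obtain ⟨u₁, u₂, hne, hs⟩ := Set.ncard_eq_two.1 hn
    have m1 : u₁ ∈ c.toSubgraph.neighborSet w := by rw [hs]; simp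
    have m2 : u₂ ∈ c.toSubgraph.neighborSet w := by rw [hs]; simp
    rw [SimpleGraph.Subgraph.mem_neighborSet] at m1 m2
    refine ⟨u₁, ?_, u₂, ?_, hne, m1.adj_sub, m2.adj_sub⟩
    · have := c.toSubgraph.edge_vert m1.symm
      rwa [SimpleGraph.Walk.mem_verts_toSubgraph] at this
    · have := c.toSubgraph.edge_vert m2.symm
      rwa [SimpleGraph.Walk.mem_verts_toSubgraph] at this
  -- general step for a vertex on the circle `a`, `b` the other parameter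
  have step : ∀ a b : ℝ, (∀ n : ℤ, a ≠ n) → (∀ n : ℤ, b ≠ n) → (A a₁ ∪ A a₂ = A a ∪ A b) →
      ∀ w ∈ c.support, (w : ℤ × ℤ) ∈ A a →
      (∃ u ∈ c.support, (u : ℤ × ℤ) ∈ A b ∧ (u : ℤ × ℤ).1 = (w : ℤ × ℤ).1) ∧
      (∃ u ∈ c.support, (u : ℤ × ℤ) ∈ A b ∧ (u : ℤ × ℤ).2 = (w : ℤ × ℤ).2) := by
    intro a b ha hb hab w hw hwa
    obtain ⟨u₁, hu₁, u₂, hu₂, hne, ad1, ad2⟩ := nb w hw
    have other : ∀ u : ↥(A a₁ ∪ A a₂), (G a₁ a₂).Adj w u → (u : ℤ × ℤ) ∈ A b := by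
      intro u hu
      have hmem : (u : ℤ × ℤ) ∈ A a ∪ A b := by rw [← hab]; exact u.2
      rcases hmem with hm | hm
      · exfalso
        apply hu.1
        apply Subtype.ext
        rcases hu.2 with e | e
        · exact inj_fst ha hwa hm e
        · exact inj_snd ha hwa hm e
      · exact hm
    have b1 := other u₁ ad1
    have b2 := other u₂ ad2
    rcases ad1.2 with e1 | e1 <;> rcases ad2.2 with e2 | e2
    · exact absurd (Subtype.ext (inj_fst hb b1 b2 (e1.symm.trans e2))) hne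
    · exact ⟨⟨u₁, hu₁, b1, e1.symm⟩, ⟨u₂, hu₂, b2, e2.symm⟩⟩
    · exact ⟨⟨u₂, hu₂, b2, e2.symm⟩, ⟨u₁, hu₁, b1, e1.symm⟩⟩
    · exact absurd (Subtype.ext (inj_snd hb b1 b2 (e1.symm.trans e2))) hne
  set P := V.filter (· ∈ A a₁) with hPdef
  set Q := V.filter (· ∈ A a₂) with hQdef
  have memV : ∀ w ∈ V, ∃ u ∈ c.support, (u : ℤ × ℤ) = w := by
    intro w hw
    rw [hV, Finset.mem_image] at hw
    obtain ⟨u, hu, rfl⟩ := hw
    exact ⟨u, List.mem_toFinset.1 hu, rfl⟩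
  have memV' : ∀ u ∈ c.support, (u : ℤ × ℤ) ∈ V := by
    intro u hu
    rw [hV, Finset.mem_image]
    exact ⟨u, List.mem_toFinset.2 hu, rfl⟩
  have hfst : P.image Prod.fst = Q.image Prod.fst := by
    ext k
    simp only [Finset.mem_image, hPdef, hQdef, Finset.mem_filter]
    constructor
    · rintro ⟨w, ⟨hw, hwa⟩, rfl⟩
      obtain ⟨w', hw', rfl⟩ := memV w hw
      obtain ⟨⟨u, hu, hub, e⟩, _⟩ := step a₁ a₂ h1 h2 rfl w' hw' hwa
      exact ⟨u, ⟨memV' u hu, hub⟩, e⟩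
    · rintro ⟨w, ⟨hw, hwa⟩, rfl⟩
      obtain ⟨w', hw', rfl⟩ := memV w hw
      obtain ⟨⟨u, hu, hub, e⟩, _⟩ := step a₂ a₁ h2 h1 (Set.union_comm _ _) w' hw' hwa
      exact ⟨u, ⟨memV' u hu, hub⟩, e⟩
  have hsnd : P.image Prod.snd = Q.image Prod.snd := by
    ext k
    simp only [Finset.mem_image, hPdef, hQdef, Finset.mem_filter]
    constructor
    · rintro ⟨w, ⟨hw, hwa⟩, rfl⟩
      obtain ⟨w', hw', rfl⟩ := memV w hw
      obtain ⟨_, ⟨u, hu, hub, e⟩⟩ := step a₁ a₂ h1 h2 rfl w' hw' hwa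
      exact ⟨u, ⟨memV' u hu, hub⟩, e⟩
    · rintro ⟨w, ⟨hw, hwa⟩, rfl⟩
      obtain ⟨w', hw', rfl⟩ := memV w hw
      obtain ⟨_, ⟨u, hu, hub, e⟩⟩ := step a₂ a₁ h2 h1 (Set.union_comm _ _) w' hw' hwa
      exact ⟨u, ⟨memV' u hu, hub⟩, e⟩
  obtain ⟨hPe, hQe⟩ := key h h1 h2 P Q (fun v hv => (Finset.mem_filter.1 hv).2)
    (fun v hv => (Finset.mem_filter.1 hv).2) hfst hsnd
  have hv0 := memV' v₀ c.start_mem_support
  rcases v₀.2 with hm | hm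
  · have : (v₀ : ℤ × ℤ) ∈ P := Finset.mem_filter.2 ⟨hv0, hm⟩
    rw [hPe] at this
    exact absurd this (Finset.notMem_empty _)
  · have : (v₀ : ℤ × ℤ) ∈ Q := Finset.mem_filter.2 ⟨hv0, hm⟩
    rw [hQe] at this
    exact absurd this (Finset.notMem_empty _)

end Pool.Agent.Results.MP_0955de_an.NoCycle
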